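import Pool.Agent.Q263.GN.Sec

/-!
# Project GN: the first moment (job GN-FST)
-/

set_option autoImplicit false
set_option linter.unusedVariables false
set_option linter.unusedSectionVars false

open scoped Classical

namespace Q263.GN

open Finset Matrix
open Q155.KT (kz kz_pos kz_pow kz_le)
open Q155.KG (Lm FI al lm_FI lm_id)
open Pool.Agent.Q1.PT (avg avg_equiv avg_prod avg_mono avg_const avg_add avg_sub abs_avg avg_hom)
open Q155.NL
open Q155.GN

section
variable {τ ι : Type} [Fintype τ] [Fintype ι]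

/-- the trivial bound of the mean -/
theorem mean_kf (hR : S_ROOT) {M : Matrix τ τ (ZMod 2)} (hM : M.IsSymm) (v : ι → τ → ZMod 2)
    (U : Finset ι) :
    avg (fun x : ι → ι → ZMod 2 => (hv (KF M v U x) : ℝ)) ≤ 2 ^ (Fintype.card τ + 2) := by
  rcases Finset.eq_empty_or_nonempty U with rfl | ⟨b, hb⟩
  · refine (avg_mono fun x => ?_).trans (le_of_eq (avg_const (2 ^ (Fintype.card τ + 2))))
    have h1 : KF M v ∅ x ≤ 2 ^ Fintype.card τ := by
      unfold KF
      refine (kz_le _).trans (le_of_eq ?_)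
      congr 1
      rw [Fintype.card_sum, Fintype.card_coe, Finset.inter_empty, Finset.card_empty, add_zero]
    have h2 : hv (KF M v ∅ x) ≤ 2 ^ (Fintype.card τ + 2) := by
      unfold hv
      have h3 : 1 ≤ 2 ^ Fintype.card τ := Nat.one_le_two_pow
      have h4 : 2 ^ (Fintype.card τ + 2) = 4 * 2 ^ Fintype.card τ := by ring
      omega
    exact_mod_cast h2
  · have hJ : (univ.erase b : Finset ι) ∩ U = U.erase b := by
      rw [Finset.erase_inter, Finset.univ_inter]
    simp_rw [hv_kf hR hM v hb hJ]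
    exact mean_any (M := lapM M + Matrix.diagonal fun r => ∑ i ∈ U, v i r) (v := v)
      (e := fun i => ∑ r, v i r) (sym_add (lap_symm hM) U)
      (Finset.inter_subset_right : (univ.erase b : Finset ι) ∩ U ⊆ U)

/-- **JOB GN-FST.** -/
theorem fst : S_FST := by
  intro hR τ ι _ _ M v hM L hL
  rw [avg_swap]
  have h0 : avg (fun U : Finset ι => avg fun x => (hv (KF M v U x) : ℝ)) =
      avg (fun U : Finset ι => avg fun U' : Finset ι => avg fun x => (hv (KF M v U x) : ℝ)) := by
    congr 1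
    funext U
    rw [avg_const]
  rw [h0]
  have h1 : ∀ U U' : Finset ι, avg (fun x => (hv (KF M v U x) : ℝ)) ≤ 2 +
      (2 ^ (Fintype.card τ + 2) * bq v U U' +
        2 ^ (Fintype.card τ + 2) * (1 / 2) ^ (univ ∩ (U \ U')).card) := by
    intro U U'
    have h5 : (0 : ℝ) ≤ 2 ^ (Fintype.card τ + 2) * bq v U U' :=
      mul_nonneg (by positivity) (bq_nonneg v U U')
    by_cases h : GQ v U U'
    · obtain ⟨J1, b, b', hb, hb', hJ, hJ', hGP, hc⟩ := good_J h
      have h2 := good_bd (e := fun i => ∑ r, v i r) (lap_symm hM) hGP hc lm_id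
        (G := fun x => 1) (fun B hB x x' _ => rfl) (fun x => by rw [abs_one])
      simp_rw [mul_one, avg_sub] at h2
      rw [avg_const] at h2
      simp_rw [hv_kf hR hM v hb hJ]
      linarith [le_abs_self (avg (fun x =>
        (kU (lapM M) v (fun i => ∑ r, v i r) J1 U x : ℝ)) - 2)]
    · have h2 := bq_bad h
      have h3 := mean_kf hR hM v U
      have h4 : (0 : ℝ) ≤ 2 ^ (Fintype.card τ + 2) * (1 / 2) ^ (univ ∩ (U \ U')).card := by
        positivity
      have h6 : (2 : ℝ) ^ (Fintype.card τ + 2) ≤ 2 ^ (Fintype.card τ + 2) * bq v U U' :=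
        le_mul_of_one_le_right (by positivity) h2
      linarith
  refine (avg_mono fun U => avg_mono fun U' => h1 U U').trans ?_
  simp_rw [avg_add, avg_mulcl, avg_const]
  rw [avg_diff]
  have h3 : ((3 + 1 / 2) / 4 : ℝ) = 7 / 8 := by norm_num
  rw [h3, Finset.card_univ]
  have h4 := mul_le_mul_of_nonneg_left (avg_bq (v := v) hL)
    (by positivity : (0 : ℝ) ≤ 2 ^ (Fintype.card τ + 2))
  have h5 : ((3 / 4 : ℝ)) ^ Fintype.card ι ≤ (7 / 8) ^ Fintype.card ι :=
    pow_le_pow_left₀ (by norm_num) (by norm_num) _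
  have h6 : (1 : ℝ) ≤ 2 ^ Fintype.card τ := one_le_pow₀ (by norm_num)
  have h7 : (0 : ℝ) ≤ (3 / 4 : ℝ) ^ L := by positivity
  have h8 : (0 : ℝ) ≤ (7 / 8 : ℝ) ^ Fintype.card ι := by positivity
  have h9 : (2 : ℝ) ^ (2 * Fintype.card τ + 5) = 32 * (2 ^ Fintype.card τ * 2 ^ Fintype.card τ) := by
    rw [two_mul]
    ring
  have h10 : (2 : ℝ) ^ (Fintype.card τ + 2) = 4 * 2 ^ Fintype.card τ := by ring
  rw [h10] at h4 ⊢
  rw [h9]
  set a : ℝ := 2 ^ Fintype.card τ with ha
  have ha2 : a ≤ a * a := le_mul_of_one_le_left (by linarith) h6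
  have k1 : 4 * a * (a * (3 / 4) ^ L + 2 * (3 / 4) ^ Fintype.card ι) ≤
      4 * (a * a) * (3 / 4) ^ L + 8 * (a * a) * (7 / 8) ^ Fintype.card ι := by
    have k2 : a * (3 / 4) ^ Fintype.card ι ≤ (a * a) * (7 / 8) ^ Fintype.card ι :=
      mul_le_mul ha2 h5 (by positivity) (by positivity)
    nlinarith
  have k3 : 4 * a * (7 / 8) ^ Fintype.card ι ≤ 4 * (a * a) * (7 / 8) ^ Fintype.card ι := by
    have := mul_le_mul_of_nonneg_right ha2 h8
    nlinarith
  have k4 : 0 ≤ (a * a) * (3 / 4) ^ L := by positivity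
  have k5 : 0 ≤ (a * a) * (7 / 8) ^ Fintype.card ι := by positivity
  nlinarith

end

end Q263.GN
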