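import Pool.Agent.Q155.GN.Stm2

/-!
# Project GN: the second and the first moment (jobs GN-SEC, GN-FST)
-/

set_option autoImplicit false
set_option linter.unusedVariables false
set_option linter.unusedSectionVars false

open scoped Classical

namespace Q263.GN

open Finset Matrix
open Q155.KT (kz kz_pos kz_pow kz_le)
open Q155.KG (Lm FI al lm_FI lm_id)
open Pool.Agent.Q1.PT (avg avg_equiv avg_prod avg_mono avg_const avg_add avg_sub abs_avg avg_hom)
open Q155.NL
open Q155.GN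

section
variable {τ ι : Type} [Fintype τ] [Fintype ι]

theorem lap_symm {M : Matrix τ τ (ZMod 2)} (hM : M.IsSymm) : (lapM M).IsSymm := by
  refine Matrix.IsSymm.ext fun i j => ?_
  unfold lapM
  rw [Matrix.of_apply, Matrix.of_apply]
  by_cases h : i = j
  · subst h
    rfl
  · rw [if_neg h, if_neg (Ne.symm h)]
    exact hM.apply i j

theorem hv_two {k : ℕ} (h : 0 < k) : hv (2 * k) = k := by
  unfold hv
  omega

theorem hv_kf (hR : S_ROOT) {M : Matrix τ τ (ZMod 2)} (hM : M.IsSymm) (v : ι → τ → ZMod 2)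
    {U : Finset ι} {b : ι} {J1 : Finset ι} (hb : b ∈ U) (hJ : J1 ∩ U = U.erase b)
    (x : ι → ι → ZMod 2) :
    hv (KF M v U x) = kU (lapM M) v (fun i => ∑ r, v i r) J1 U x := by
  rw [hR τ ι M v U x b J1 hM hb hJ]
  exact hv_two (kz_pos _)

/-- the bound of the bad pairs -/
noncomputable def bq (v : ι → τ → ZMod 2) (U U' : Finset ι) : ℝ :=
  ∑ w ∈ univ.filter (fun w : τ → ZMod 2 => w ≠ 0), (0 : ℝ) ^ (Aw v univ w ∩ (U ∩ U')).card +
    ((0 : ℝ) ^ (univ ∩ (U \ U')).card + (0 : ℝ) ^ (univ ∩ (U' \ U)).card)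

theorem bq_nonneg (v : ι → τ → ZMod 2) (U U' : Finset ι) : 0 ≤ bq v U U' := by
  unfold bq
  have h0 : ∀ n : ℕ, (0 : ℝ) ≤ 0 ^ n := fun n => pow_nonneg le_rfl _
  exact add_nonneg (Finset.sum_nonneg fun w _ => h0 _) (add_nonneg (h0 _) (h0 _))

/-- the good pairs -/
def GQ (v : ι → τ → ZMod 2) (U U' : Finset ι) : Prop :=
  Sep v (U ∩ U') ∧ (U \ U').Nonempty ∧ (U' \ U).Nonempty

theorem bq_bad {v : ι → τ → ZMod 2} {U U' : Finset ι} (h : ¬ GQ v U U') : 1 ≤ bq v U U' := by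
  have h0 : ∀ n : ℕ, (0 : ℝ) ≤ 0 ^ n := fun n => pow_nonneg le_rfl _
  have hs : (0 : ℝ) ≤ ∑ w ∈ univ.filter (fun w : τ → ZMod 2 => w ≠ 0),
      (0 : ℝ) ^ (Aw v univ w ∩ (U ∩ U')).card := Finset.sum_nonneg fun w _ => h0 _
  unfold GQ at h
  unfold bq
  by_cases h1 : Sep v (U ∩ U')
  · by_cases h2 : (U \ U').Nonempty
    · have h3 : ¬ (U' \ U).Nonempty := fun h3 => h ⟨h1, h2, h3⟩
      rw [Finset.not_nonempty_iff_eq_empty] at h3
      rw [h3, Finset.inter_empty, Finset.card_empty, pow_zero]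
      linarith [h0 (univ ∩ (U \ U')).card]
    · rw [Finset.not_nonempty_iff_eq_empty] at h2
      rw [h2, Finset.inter_empty, Finset.card_empty, pow_zero]
      linarith [h0 (univ ∩ (U' \ U)).card]
  · have h1' : ¬ Sep v (univ ∩ (U ∩ U')) := by rwa [Finset.univ_inter]
    obtain ⟨w, h3, h4⟩ := exists_w h1'
    have h5 : (1 : ℝ) ≤ ∑ w ∈ univ.filter (fun w : τ → ZMod 2 => w ≠ 0),
        (0 : ℝ) ^ (Aw v univ w ∩ (U ∩ U')).card := by
      refine le_trans (le_of_eq ?_) (Finset.single_le_sum (f := fun w : τ → ZMod 2 =>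
        (0 : ℝ) ^ (Aw v univ w ∩ (U ∩ U')).card) (fun w _ => h0 _)
        (Finset.mem_filter.2 ⟨Finset.mem_univ w, h3⟩))
      show (1 : ℝ) = 0 ^ (Aw v univ w ∩ (U ∩ U')).card
      rw [h4, Finset.card_empty, pow_zero]
    linarith [h0 (univ ∩ (U \ U')).card, h0 (univ ∩ (U' \ U)).card]

/-- the proportion of the bad pairs -/
theorem avg_bq {v : ι → τ → ZMod 2} {L : ℕ}
    (hL : ∀ w : τ → ZMod 2, w ≠ 0 → L ≤ (univ.filter fun i => ∑ r, w r * v i r ≠ 0).card) :
    avg (fun U : Finset ι => avg fun U' : Finset ι => bq v U U') ≤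
      2 ^ Fintype.card τ * (3 / 4) ^ L + 2 * (3 / 4) ^ Fintype.card ι := by
  unfold bq
  simp_rw [avg_add, avg_sums]
  rw [avg_diff]
  have hsw : avg (fun U : Finset ι => avg fun U' : Finset ι => (0 : ℝ) ^ (univ ∩ (U' \ U)).card) =
      avg (fun U : Finset ι => avg fun U' : Finset ι => (0 : ℝ) ^ (univ ∩ (U \ U')).card) :=
    avg_swap _
  rw [hsw, avg_diff, Finset.card_univ]
  have hAw : ∀ w : τ → ZMod 2, w ≠ 0 → L ≤ (Aw v univ w).card := by
    intro w hw
    refine (hL w hw).trans (le_of_eq ?_)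
    unfold Aw
    congr 1
    ext i
    rw [Finset.mem_filter, Finset.mem_filter]
    have : ∑ r, w r * v i r = ∑ r, v i r * w r := Finset.sum_congr rfl fun r _ => mul_comm _ _
    rw [this]
  have h1 : ∀ w ∈ univ.filter (fun w : τ → ZMod 2 => w ≠ 0),
      avg (fun U : Finset ι => avg fun U' : Finset ι =>
        (0 : ℝ) ^ (Aw v univ w ∩ (U ∩ U')).card) ≤ (3 / 4) ^ L := by
    intro w hw
    rw [avg_inter, add_zero]
    exact pow_le_pow_of_le_one (by norm_num) (by norm_num) (hAw w (Finset.mem_filter.1 hw).2)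
  have h2 : ((univ.filter (fun w : τ → ZMod 2 => w ≠ 0)).card : ℝ) ≤ 2 ^ Fintype.card τ := by
    have h3 : (univ.filter (fun w : τ → ZMod 2 => w ≠ 0)).card ≤ 2 ^ Fintype.card τ := by
      refine (Finset.card_filter_le _ _).trans (le_of_eq ?_)
      rw [Finset.card_univ, Fintype.card_fun, ZMod.card]
    exact_mod_cast h3
  have h4 : ∑ w ∈ univ.filter (fun w : τ → ZMod 2 => w ≠ 0),
      avg (fun U : Finset ι => avg fun U' : Finset ι =>
        (0 : ℝ) ^ (Aw v univ w ∩ (U ∩ U')).card) ≤ 2 ^ Fintype.card τ * (3 / 4) ^ L := by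
    refine (Finset.sum_le_card_nsmul _ _ _ h1).trans ?_
    rw [nsmul_eq_mul]
    exact mul_le_mul_of_nonneg_right h2 (by positivity)
  have h5 : ((3 + 0) / 4 : ℝ) = 3 / 4 := by norm_num
  rw [h5]
  linarith

/-- the roots of a good pair -/
theorem good_J {v : ι → τ → ZMod 2} {U U' : Finset ι} (h : GQ v U U') :
    ∃ (J1 : Finset ι) (b b' : ι), b ∈ U ∧ b' ∈ U' ∧ J1 ∩ U = U.erase b ∧ J1 ∩ U' = U'.erase b' ∧
      GP v J1 U U' ∧ (J1 ∩ (U \ U')).card + 1 = (U \ U').card := by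
  obtain ⟨hS, ⟨b, hb⟩, ⟨b', hb'⟩⟩ := h
  obtain ⟨hb1, hb2⟩ := Finset.mem_sdiff.1 hb
  obtain ⟨hb3, hb4⟩ := Finset.mem_sdiff.1 hb'
  refine ⟨({b, b'} : Finset ι)ᶜ, b, b', hb1, hb3, ?_, ?_, ⟨?_, ⟨b, ?_⟩⟩, ?_⟩
  · ext i
    rw [Finset.mem_inter, Finset.mem_compl, Finset.mem_insert, Finset.mem_singleton,
      Finset.mem_erase]
    constructor
    · rintro ⟨h1, h2⟩
      exact ⟨fun h => h1 (Or.inl h), h2⟩
    · rintro ⟨h1, h2⟩
      refine ⟨?_, h2⟩
      rintro (h | h)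
      · exact h1 h
      · subst h
        exact hb4 h2
  · ext i
    rw [Finset.mem_inter, Finset.mem_compl, Finset.mem_insert, Finset.mem_singleton,
      Finset.mem_erase]
    constructor
    · rintro ⟨h1, h2⟩
      exact ⟨fun h => h1 (Or.inr h), h2⟩
    · rintro ⟨h1, h2⟩
      refine ⟨?_, h2⟩
      rintro (h | h)
      · subst h
        exact hb2 h2
      · exact h1 h
  · have h1 : ({b, b'} : Finset ι)ᶜ ∩ (U ∩ U') = U ∩ U' := by
      rw [Finset.inter_eq_right]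
      intro i hi
      rw [Finset.mem_compl, Finset.mem_insert, Finset.mem_singleton]
      obtain ⟨h1, h2⟩ := Finset.mem_inter.1 hi
      rintro (h | h)
      · subst h
        exact hb2 h2
      · subst h
        exact hb4 h1
    rw [h1]
    exact hS
  · rw [compl_compl]
    exact Finset.mem_inter.2 ⟨Finset.mem_insert_self _ _, hb⟩
  · have h1 : ({b, b'} : Finset ι)ᶜ ∩ (U \ U') = (U \ U').erase b := by
      ext i
      rw [Finset.mem_inter, Finset.mem_compl, Finset.mem_insert, Finset.mem_singleton,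
        Finset.mem_erase]
      constructor
      · rintro ⟨h1, h2⟩
        exact ⟨fun h => h1 (Or.inl h), h2⟩
      · rintro ⟨h1, h2⟩
        refine ⟨?_, h2⟩
        rintro (h | h)
        · exact h1 h
        · subst h
          exact (Finset.mem_sdiff.1 h2).2 hb3
    rw [h1]
    exact Finset.card_erase_add_one hb

/-- the bound of a good pair -/
theorem good_bd {M : Matrix τ τ (ZMod 2)} (hM : M.IsSymm) {v : ι → τ → ZMod 2} {e : ι → ZMod 2}
    {J1 U U' : Finset ι} (h : GP v J1 U U') (hc : (J1 ∩ (U \ U')).card + 1 = (U \ U').card)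
    {F : ℕ → ℝ} {ℓ : ℝ}
    (hF : Lm F ℓ) {G : (ι → ι → ZMod 2) → ℝ} (hG : ∀ B : Finset ι, Disjoint B U' → Inr B G)
    (hG1 : ∀ x, |G x| ≤ 1) :
    |avg (fun x => (F (kU M v e J1 U x) - ℓ) * G x)| ≤
      2 ^ (Fintype.card τ + 2) * (1 / 2) ^ (univ ∩ (U \ U')).card := by
  refine (good_le hM h hF hG hG1).trans (le_of_eq ?_)
  rw [Finset.univ_inter, ← hc]
  ring

/-- **JOB GN-SEC.** -/
theorem sec : S_SEC := by
  intro hR τ ι _ _ M v hM L hL F ℓ hF hF1 ω hω
  simp_rw [avg_sq]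
  rw [avg_swap]
  have h1 : ∀ U U' : Finset ι, avg (fun x => (ω U * (F (hv (KF M v U x)) - ℓ)) *
      (ω U' * (F (hv (KF M v U' x)) - ℓ))) ≤ bq v U U' +
        2 ^ (Fintype.card τ + 2) * (1 / 2) ^ (univ ∩ (U \ U')).card := by
    intro U U'
    have hωω : |ω U * ω U'| ≤ 1 := by
      rw [abs_mul]
      calc _ ≤ (1 : ℝ) * 1 := mul_le_mul (hω U) (hω U') (abs_nonneg _) zero_le_one
        _ = 1 := one_mul 1
    by_cases h : GQ v U U'
    · obtain ⟨J1, b, b', hb, hb', hJ, hJ', hGP, hc⟩ := good_J h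
      have h2 := good_bd (e := fun i => ∑ r, v i r) (lap_symm hM) hGP hc hF
        (G := fun x => F (kU (lapM M) v (fun i => ∑ r, v i r) J1 U' x) - ℓ)
        (fun B hB => kU_inr hB fun z => F z - ℓ) (fun x => hF1 _)
      have h3 : ∀ x : ι → ι → ZMod 2, (ω U * (F (hv (KF M v U x)) - ℓ)) *
          (ω U' * (F (hv (KF M v U' x)) - ℓ)) = (ω U * ω U') *
          ((F (kU (lapM M) v (fun i => ∑ r, v i r) J1 U x) - ℓ) *
            (F (kU (lapM M) v (fun i => ∑ r, v i r) J1 U' x) - ℓ)) := by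
        intro x
        rw [hv_kf hR hM v hb hJ x, hv_kf hR hM v hb' hJ' x]
        ring
      simp_rw [h3]
      rw [avg_mulcl]
      refine (le_abs_self _).trans ?_
      rw [abs_mul]
      refine (mul_le_mul hωω h2 (abs_nonneg _) zero_le_one).trans ?_
      rw [one_mul]
      linarith [bq_nonneg v U U']
    · have h2 := bq_bad h
      have h3 : avg (fun x => (ω U * (F (hv (KF M v U x)) - ℓ)) *
          (ω U' * (F (hv (KF M v U' x)) - ℓ))) ≤ 1 := by
        refine (avg_mono fun x => ?_).trans (le_of_eq (avg_const 1))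
        refine (le_abs_self _).trans ?_
        have e1 : (ω U * (F (hv (KF M v U x)) - ℓ)) * (ω U' * (F (hv (KF M v U' x)) - ℓ)) =
          (ω U * ω U') * ((F (hv (KF M v U x)) - ℓ) * (F (hv (KF M v U' x)) - ℓ)) := by ring
        rw [e1, abs_mul]
        have e2 : |(F (hv (KF M v U x)) - ℓ) * (F (hv (KF M v U' x)) - ℓ)| ≤ 1 := by
          rw [abs_mul]
          calc _ ≤ (1 : ℝ) * 1 := mul_le_mul (hF1 _) (hF1 _) (abs_nonneg _) zero_le_one
            _ = 1 := one_mul 1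
        calc _ ≤ (1 : ℝ) * 1 := mul_le_mul hωω e2 (abs_nonneg _) zero_le_one
          _ = 1 := one_mul 1
      have h4 : (0 : ℝ) ≤ 2 ^ (Fintype.card τ + 2) * (1 / 2) ^ (univ ∩ (U \ U')).card := by
        positivity
      linarith
  have h2 : avg (fun U : Finset ι => avg fun x => avg fun U' : Finset ι =>
      (ω U * (F (hv (KF M v U x)) - ℓ)) * (ω U' * (F (hv (KF M v U' x)) - ℓ))) ≤
      avg (fun U : Finset ι => avg fun U' : Finset ι => (bq v U U' +
        2 ^ (Fintype.card τ + 2) * (1 / 2) ^ (univ ∩ (U \ U')).card)) := by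
    refine avg_mono fun U => ?_
    rw [avg_swap]
    exact avg_mono fun U' => h1 U U'
  refine h2.trans ?_
  simp_rw [avg_add, avg_mulcl]
  rw [avg_diff]
  have h3 : ((3 + 1 / 2) / 4 : ℝ) = 7 / 8 := by norm_num
  rw [h3, Finset.card_univ]
  have h4 := avg_bq (v := v) hL
  have h5 : ((3 / 4 : ℝ)) ^ Fintype.card ι ≤ (7 / 8) ^ Fintype.card ι :=
    pow_le_pow_left₀ (by norm_num) (by norm_num) _
  have h6 : (1 : ℝ) ≤ 2 ^ Fintype.card τ := one_le_pow₀ (by norm_num)
  have h7 : (0 : ℝ) ≤ (3 / 4 : ℝ) ^ L := by positivity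
  have h8 : (0 : ℝ) ≤ (7 / 8 : ℝ) ^ Fintype.card ι := by positivity
  have h9 : (2 : ℝ) ^ (Fintype.card τ + 3) = 8 * 2 ^ Fintype.card τ := by ring
  have h10 : (2 : ℝ) ^ (Fintype.card τ + 2) = 4 * 2 ^ Fintype.card τ := by ring
  rw [h9, h10]
  nlinarith [mul_nonneg (zero_le_one.trans h6) h7, mul_nonneg (zero_le_one.trans h6) h8,
    mul_le_mul_of_nonneg_right h6 h8]

end

end Q263.GN
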